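import Mathlib
import Pool.Agent.W35.Sub3.Main2

/-!
# The universal formula for subspaces with dimension sequence (m,m,m)

For a matrix `T` of size `3m` over a finite field with `q` elements, the number `σ` of
`m`-dimensional subspaces `W` with `V = W ⊕ TW ⊕ T²W` equals
`∑ ω^(j2+2j3) q^(C(m+1,2) + (C(j1,2)+C(j2,2)+C(j3,2)-g)/3) Y_(j1,j2,j3)`.
The exponent printed in the problem file differs from this one by the constant `m(m-3)/2`,
so the printed sum equals `q^(m(m-3)/2) σ`.
-/

namespace Pool.Agent.Results.MP_9e5051_co.UniversalFormula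

open Module

universe u

/-- `V = W ⊕ TW ⊕ T²W` (internal direct sum) and `dim W = m` -/
def Splits {F : Type u} [Field F] {V : Type u} [AddCommGroup V] [Module F V]
    (T : V →ₗ[F] V) (m : ℕ) (W : Submodule F V) : Prop :=
  finrank F W = m ∧
    W ⊓ W.map T = ⊥ ∧
    (W ⊔ W.map T) ⊓ W.map (T ∘ₗ T) = ⊥ ∧
    (W ⊔ W.map T) ⊔ W.map (T ∘ₗ T) = ⊤

/-- `W` is `T`-stable -/
def Stable {F : Type u} [Field F] {V : Type u} [AddCommGroup V] [Module F V]
    (T : V →ₗ[F] V) (W : Submodule F V) : Prop := ∀ v ∈ W, T v ∈ W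

/-- `W1 ≤ W2 ≤ W3` is a chain of `T`-stable subspaces with
`dim W1 = j1`, `dim W2 - dim W1 = j2`, `dim W3 - dim W2 = j3` -/
def Chain {F : Type u} [Field F] {V : Type u} [AddCommGroup V] [Module F V]
    (T : V →ₗ[F] V) (j1 j2 j3 : ℕ) (W1 W2 W3 : Submodule F V) : Prop :=
  W1 ≤ W2 ∧ W2 ≤ W3 ∧ Stable T W1 ∧ Stable T W2 ∧ Stable T W3 ∧
    finrank F W1 = j1 ∧ finrank F W2 = finrank F W1 + j2 ∧ finrank F W3 = finrank F W2 + j3

/-- the space `V` of column vectors of length `3m` -/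
abbrev Vec (F : Type u) (m : ℕ) : Type u := Fin (3 * m) → F

/-- `σ^T_(m,m,m)`: the number of subspaces `W` of dimension `m` with `V = W ⊕ TW ⊕ T²W`
(`V` the space of column vectors of length `3m`). -/
noncomputable def sigma {F : Type u} [Field F] (m : ℕ)
    (T : Matrix (Fin (3 * m)) (Fin (3 * m)) F) : ℕ :=
  Nat.card {W : Submodule F (Vec F m) // Splits T.toLin' m W}

/-- `Y^T_(j1,j2,j3)`: the number of chains `W1 ≤ W2 ≤ W3` of `T`-stable subspaces with
`dim W1 = j1`, `dim W2 - dim W1 = j2`, `dim W3 - dim W2 = j3`. -/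
noncomputable def flags {F : Type u} [Field F] {m : ℕ}
    (T : Matrix (Fin (3 * m)) (Fin (3 * m)) F) (j1 j2 j3 : ℕ) : ℕ :=
  Nat.card {W : Submodule F (Vec F m) × Submodule F (Vec F m) × Submodule F (Vec F m) //
    Chain T.toLin' j1 j2 j3 W.1 W.2.1 W.2.2}

/-- the function `g` of the problem -/
def g (j2 j3 : ℕ) : ℕ := if (j2 + 2 * j3) % 3 = 2 then 2 * j2 + j3 else j2 + 2 * j3

/-- the bracket `C(j1,2) + C(j2,2) + C(j3,2) - g(j1,j2,j3)` of the problem -/
def bracket (j1 j2 j3 : ℕ) : ℤ :=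
  (j1.choose 2 : ℤ) + (j2.choose 2 : ℤ) + (j3.choose 2 : ℤ) - (g j2 j3 : ℤ)

/-- the exponent as printed in the problem file -/
def ePrinted (m j1 j2 j3 : ℕ) : ℤ := (m : ℤ) ^ 2 - m + bracket j1 j2 j3 / 3

/-- the correct exponent -/
def eTrue (m j1 j2 j3 : ℕ) : ℤ := ((m + 1).choose 2 : ℤ) + bracket j1 j2 j3 / 3

/-- the triples `(j1,j2,j3)` of natural numbers with sum `3m` -/
def index (m : ℕ) : Finset (ℕ × ℕ × ℕ) :=
  (Finset.range (3 * m + 1) ×ˢ Finset.range (3 * m + 1) ×ˢ Finset.range (3 * m + 1)).filter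
    (fun j => j.1 + j.2.1 + j.2.2 = 3 * m)

/-- the sum `∑ ω^(j2+2j3) q^(e(j)) Y^T_j` for an exponent function `e` -/
noncomputable def rhs {F : Type u} [Field F] [Fintype F] {m : ℕ} (e : ℕ → ℕ → ℕ → ℤ) (ω : ℂ)
    (T : Matrix (Fin (3 * m)) (Fin (3 * m)) F) : ℂ :=
  ∑ j ∈ index m, ω ^ (j.2.1 + 2 * j.2.2) * (Fintype.card F : ℂ) ^ (e j.1 j.2.1 j.2.2)
    * (flags T j.1 j.2.1 j.2.2 : ℂ)

open Pool.Agent.W35.Sub3 in
theorem sigma_eq {F : Type u} [Field F] [Fintype F] (m : ℕ)
    (T : Matrix (Fin (3 * m)) (Fin (3 * m)) F) : sigma m T = sig T.toLin' m := by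
  classical
  have hn : finrank F (Fin (3 * m) → F) = 3 * m := by simp
  unfold sigma sig Splits
  rw [Nat.card_eq_fintype_card, Fintype.card_subtype]
  congr 1
  ext W
  simp only [Finset.mem_filter, Finset.mem_univ, true_and]
  constructor
  · rintro ⟨h1, _, _, h4⟩
    exact ⟨h1, h4⟩
  · rintro ⟨h1, h4⟩
    obtain ⟨h5, h6⟩ := dims_of_sup hn h4
    have h7 : dm (W ⊔ W.map T.toLin') = 2 * m := by omega
    refine ⟨h1, ?_, ?_, h4⟩
    · have h8 := dm_sup_inf W (W.map T.toLin')
      have h9 := dm_map_add T.toLin' W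
      have h10 : dm (W ⊓ W.map T.toLin') = 0 := by omega
      exact Submodule.finrank_eq_zero.1 h10
    · have h8 := dm_sup_inf (W ⊔ W.map T.toLin') (W.map (T.toLin' ∘ₗ T.toLin'))
      have h9 := dm_map_add (T.toLin' ∘ₗ T.toLin') W
      rw [h4, dm_top, hn] at h8
      have h10 : dm ((W ⊔ W.map T.toLin') ⊓ W.map (T.toLin' ∘ₗ T.toLin')) = 0 := by omega
      exact Submodule.finrank_eq_zero.1 h10

open Pool.Agent.W35.Sub3 in
theorem flags_eq {F : Type u} [Field F] [Fintype F] (m : ℕ)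
    (T : Matrix (Fin (3 * m)) (Fin (3 * m)) F) (j1 j2 j3 : ℕ) (hj : j1 + j2 + j3 = 3 * m) :
    flags T j1 j2 j3 = Y2 T.toLin' j1 j2 := by
  classical
  have hn : finrank F (Fin (3 * m) → F) = 3 * m := by simp
  unfold flags Y2 Chain Stable
  rw [← Fintype.card_subtype, ← Nat.card_eq_fintype_card]
  refine Nat.card_congr ⟨fun W => ⟨(W.1.1, W.1.2.1), ?_⟩, fun W => ⟨(W.1.1, W.1.2, ⊤), ?_⟩, ?_, ?_⟩
  · obtain ⟨⟨W1, W2, W3⟩, h1, h2, h3, h4, h5, h6, h7, h8⟩ := W
    simp only at h1 h2 h3 h4 h5 h6 h7 h8 ⊢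
    refine ⟨h1, h3, h4, h6, ?_⟩
    unfold dm; rw [h7, h6]
  · obtain ⟨⟨W1, W2⟩, h1, h2, h3, h4, h5⟩ := W
    simp only at h1 h2 h3 h4 h5 ⊢
    refine ⟨h1, le_top, h2, h3, fun _ _ => trivial, h4, ?_, ?_⟩
    · unfold dm at h4 h5; rw [h4, h5]
    · unfold dm at h5; rw [finrank_top, hn, h5, hj]
  · rintro ⟨⟨W1, W2, W3⟩, h1, h2, h3, h4, h5, h6, h7, h8⟩
    simp only at h1 h2 h3 h4 h5 h6 h7 h8
    have h9 : W3 = ⊤ := by
      apply Submodule.eq_top_of_finrank_eq
      rw [h8, h7, h6, hj, hn]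
    subst h9
    rfl
  · rintro ⟨⟨W1, W2⟩, h⟩
    rfl

theorem bracket_dvd (m j1 j2 j3 : ℕ) (hj : j1 + j2 + j3 = 3 * m) :
    (3 : ℤ) ∣ bracket j1 j2 j3 := by
  unfold bracket g
  by_cases h : (j2 + 2 * j3) % 3 = 2
  · rw [if_pos h]
    have := Pool.Agent.W35.Sub3.dvd_ex m j1 j3 j2 (by omega) (by omega)
    convert this using 1
    push_cast; ring
  · rw [if_neg h]
    have := Pool.Agent.W35.Sub3.dvd_ex m j1 j2 j3 hj (by omega)
    convert this using 1
    push_cast; ring

theorem formula (F : Type u) [Field F] [Fintype F] (m : ℕ)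
    (T : Matrix (Fin (3 * m)) (Fin (3 * m)) F) (ω : ℂ) (hω : IsPrimitiveRoot ω 3) :
    (sigma m T : ℂ) = rhs (eTrue m) ω T := by
  have hn : finrank F (Fin (3 * m) → F) = 3 * m := by simp
  rw [sigma_eq, Pool.Agent.W35.Sub3.main_complex T.toLin' m hn hω]
  unfold rhs
  change ∑ j ∈ index m, _ = _
  apply Finset.sum_congr rfl
  intro j hj
  have hj' : j.1 + j.2.1 + j.2.2 = 3 * m := (Finset.mem_filter.1 hj).2
  rw [flags_eq m T _ _ _ hj']
  congr 2
  unfold eTrue Pool.Agent.W35.Sub3.ex bracket g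
  by_cases h : (j.2.1 + 2 * j.2.2) % 3 = 2
  · rw [if_pos h, if_pos h]
    congr 3
    push_cast; ring
  · rw [if_neg h, if_neg h]
    push_cast
    rfl

theorem formula_printed (F : Type u) [Field F] [Fintype F] (m : ℕ)
    (T : Matrix (Fin (3 * m)) (Fin (3 * m)) F) (ω : ℂ) (hω : IsPrimitiveRoot ω 3) :
    rhs (ePrinted m) ω T = (Fintype.card F : ℂ) ^ ((m : ℤ) * (m - 3) / 2) * (sigma m T : ℂ) := by
  have hq : (Fintype.card F : ℂ) ≠ 0 := by exact_mod_cast Fintype.card_ne_zero
  rw [formula F m T ω hω]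
  unfold rhs
  rw [Finset.mul_sum]
  apply Finset.sum_congr rfl
  intro j _
  have h1 := Pool.Agent.W35.Sub3.two_choose (m + 1)
  push_cast at h1
  have h2 : (m : ℤ) * (m - 3) / 2 = (m : ℤ) ^ 2 - m - ((m + 1).choose 2 : ℤ) := by
    have : (m : ℤ) * (m - 3) = ((m : ℤ) ^ 2 - m - ((m + 1).choose 2 : ℤ)) * 2 := by
      linear_combination h1
    rw [this, Int.mul_ediv_cancel _ (by norm_num)]
  have h3 : ePrinted m j.1 j.2.1 j.2.2 = (m : ℤ) * (m - 3) / 2 + eTrue m j.1 j.2.1 j.2.2 := by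
    rw [h2]; unfold ePrinted eTrue; ring
  rw [h3, zpow_add₀ hq]
  ring

/-- the block shift matrix -/
def shift (F : Type u) [Field F] (m : ℕ) : Matrix (Fin (3 * m)) (Fin (3 * m)) F :=
  Matrix.of (fun i j => if (i : ℕ) = j + m then 1 else 0)

theorem shift_apply (F : Type u) [Field F] (m : ℕ) (v : Fin (3 * m) → F) (i : Fin (3 * m)) :
    (shift F m).toLin' v i = if h : m ≤ (i : ℕ) then v ⟨i - m, by omega⟩ else 0 := by
  rw [Matrix.toLin'_apply, Matrix.mulVec, dotProduct]
  simp only [shift, Matrix.of_apply, ite_mul, one_mul, zero_mul]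
  split_ifs with h
  · rw [Finset.sum_eq_single (⟨i - m, by omega⟩ : Fin (3 * m))]
    · rw [if_pos (by simp only; omega)]
    · intro j _ hj
      rw [if_neg]
      intro h2
      apply hj
      ext
      simp only; omega
    · intro h2; exact absurd (Finset.mem_univ _) h2
  · apply Finset.sum_eq_zero
    intro j _
    rw [if_neg (by omega)]

/-- the embedding of the first block -/
def emb (F : Type u) [Field F] (m : ℕ) : (Fin m → F) →ₗ[F] (Fin (3 * m) → F) where
  toFun f i := if h : (i : ℕ) < m then f ⟨i, h⟩ else 0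
  map_add' f g := by
    ext i
    by_cases h : (i : ℕ) < m <;> simp [h]
  map_smul' c f := by
    ext i
    by_cases h : (i : ℕ) < m <;> simp [h]

theorem emb_apply (F : Type u) [Field F] (m : ℕ) (f : Fin m → F) (i : Fin (3 * m)) :
    emb F m f i = if h : (i : ℕ) < m then f ⟨i, h⟩ else 0 := rfl

theorem sigma_shift_pos (F : Type u) [Field F] [Fintype F] (m : ℕ) :
    sigma m (shift F m) ≠ 0 := by
  classical
  rw [sigma_eq]
  unfold Pool.Agent.W35.Sub3.sig
  apply Finset.card_ne_zero_of_mem (a := LinearMap.range (emb F m))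
  simp only [Finset.mem_filter, Finset.mem_univ, true_and]
  constructor
  · unfold Pool.Agent.W35.Sub3.dm
    rw [LinearMap.finrank_range_of_inj]
    · simp
    · intro f g hfg
      ext i
      have := congrFun hfg ⟨i, by omega⟩
      rw [emb_apply, emb_apply] at this
      simpa using this
  · rw [eq_top_iff]
    intro v _
    have e : v = (emb F m (fun i => v ⟨i, by omega⟩)
        + (shift F m).toLin' (emb F m (fun i => v ⟨i + m, by omega⟩)))
        + ((shift F m).toLin' ∘ₗ (shift F m).toLin') (emb F m (fun i => v ⟨i + 2 * m, by omega⟩)) := by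
      ext i
      rw [Pi.add_apply, Pi.add_apply, LinearMap.comp_apply, shift_apply, shift_apply, emb_apply]
      by_cases h1 : (i : ℕ) < m
      · rw [dif_pos h1, dif_neg (by omega), dif_neg (by omega)]
        simp
      · rw [dif_neg h1, dif_pos (by omega), dif_pos (by omega), emb_apply, shift_apply]
        by_cases h2 : (i : ℕ) < 2 * m
        · rw [dif_pos (by simp only; omega), dif_neg (by simp only; omega)]
          simp only [zero_add, add_zero]
          congr 1
          ext; simp only; omega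
        · rw [dif_neg (by simp only; omega), dif_pos (by simp only; omega), emb_apply,
            dif_pos (by simp only; omega)]
          simp only [zero_add]
          congr 1
          ext; simp only; omega
    rw [e]
    refine Submodule.add_mem_sup (Submodule.add_mem_sup ?_ ?_) ?_
    · exact LinearMap.mem_range_self _ _
    · exact Submodule.mem_map_of_mem (LinearMap.mem_range_self _ _)
    · exact Submodule.mem_map_of_mem (LinearMap.mem_range_self _ _)

/-- the identity `σ = ∑ ω^(j2+2j3) q^(e(j)) Y_j` for the exponent function `e`, for all matrices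
`T` of size `3m` over `F` and all primitive cube roots of unity `ω` -/
def Identity (F : Type u) [Field F] [Fintype F] (m : ℕ) (e : ℕ → ℕ → ℕ → ℤ) : Prop :=
  ∀ (T : Matrix (Fin (3 * m)) (Fin (3 * m)) F) (ω : ℂ), IsPrimitiveRoot ω 3 →
    (sigma m T : ℂ) = rhs e ω T

/-- **Main result.** (1) The bracket is divisible by 3, so all exponents are integers.
(2) For every finite field `F` with `q` elements, every `m`, every `T` and every primitive cube
root of unity `ω`, `σ^T_(m,m,m)` equals the sum with exponent `eTrue`.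
(3) The sum with the printed exponent equals `q^(m(m-3)/2) σ^T_(m,m,m)`.
(4) For every finite field `F` and every `m`, the printed identity holds for all `T` exactly when
`m = 0` or `m = 3`. -/
theorem result :
    (∀ m j1 j2 j3 : ℕ, j1 + j2 + j3 = 3 * m → (3 : ℤ) ∣ bracket j1 j2 j3) ∧
    (∀ (F : Type u) [Field F] [Fintype F] (m : ℕ), Identity F m (eTrue m)) ∧
    (∀ (F : Type u) [Field F] [Fintype F] (m : ℕ)
      (T : Matrix (Fin (3 * m)) (Fin (3 * m)) F) (ω : ℂ), IsPrimitiveRoot ω 3 →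
      rhs (ePrinted m) ω T
        = (Fintype.card F : ℂ) ^ ((m : ℤ) * (m - 3) / 2) * (sigma m T : ℂ)) ∧
    (∀ (F : Type u) [Field F] [Fintype F] (m : ℕ),
      Identity F m (ePrinted m) ↔ (m = 0 ∨ m = 3)) := by
  refine ⟨bracket_dvd, fun F _ _ m T ω hω => formula F m T ω hω,
    fun F _ _ m T ω hω => formula_printed F m T ω hω, ?_⟩
  intro F _ _ m
  constructor
  · intro h
    obtain ⟨ω, hω⟩ : ∃ ω : ℂ, IsPrimitiveRoot ω 3 := ⟨_, Complex.isPrimitiveRoot_exp 3 (by norm_num)⟩
    have h1 := h (shift F m) ω hω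
    rw [formula_printed F m (shift F m) ω hω] at h1
    have hs : (sigma m (shift F m) : ℂ) ≠ 0 := by exact_mod_cast sigma_shift_pos F m
    have h2 : (Fintype.card F : ℂ) ^ ((m : ℤ) * (m - 3) / 2) = 1 := by
      have h3 : (Fintype.card F : ℂ) ^ ((m : ℤ) * (m - 3) / 2) * (sigma m (shift F m) : ℂ)
          = 1 * (sigma m (shift F m) : ℂ) := by rw [one_mul]; exact h1.symm
      exact mul_right_cancel₀ hs h3
    have hq1 : (1 : ℝ) < (Fintype.card F : ℝ) := by exact_mod_cast Fintype.one_lt_card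
    have h4 : (Fintype.card F : ℝ) ^ ((m : ℤ) * (m - 3) / 2) = 1 := by
      have h5 : (((Fintype.card F : ℝ) ^ ((m : ℤ) * (m - 3) / 2) : ℝ) : ℂ) = ((1 : ℝ) : ℂ) := by
        push_cast; exact h2
      exact_mod_cast h5
    have h6 : ((m : ℤ) * (m - 3) / 2) = 0 := by
      exact (zpow_eq_one_iff_right₀ (by linarith) (ne_of_gt hq1)).1 h4
    have h8 := Pool.Agent.W35.Sub3.two_choose (m + 1)
    push_cast at h8
    have h9 : (m : ℤ) * (m - 3) = ((m : ℤ) ^ 2 - m - ((m + 1).choose 2 : ℤ)) * 2 := by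
      linear_combination h8
    rw [h9, Int.mul_ediv_cancel _ (by norm_num)] at h6
    rw [h6, zero_mul] at h9
    rcases mul_eq_zero.1 h9 with h10 | h10
    · left; exact_mod_cast h10
    · right; omega
  · intro h T ω hω
    rw [formula_printed F m T ω hω]
    rcases h with h | h
    · subst h; simp
    · subst h; simp

end Pool.Agent.Results.MP_9e5051_co.UniversalFormula
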